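import Mathlib
import Pool.Agent.H21.StableDef

namespace Pool.Agent.Results.MP_8ec8f8_pr.ZeroOne

open Pool.Agent.H21.Stable Real Finset MeasureTheory

def Conv (u : ℕ → ℕ → ℝ) : Prop :=
  ∀ y : ℝ, 0 < y → Summable fun p : ℕ × ℕ => |u p.1 p.2| * y ^ (p.1 + p.2)

def Sub (f : ℕ → ℕ → ℝ) : Prop := ∃ C : ℝ, 0 < C ∧ ∀ m n, |f m n| ≤ C ^ (m + n + 1)

theorem Sub.mul {f g : ℕ → ℕ → ℝ} (hf : Sub f) (hg : Sub g) : Sub fun m n => f m n * g m n := by
  obtain ⟨C, hC, h⟩ := hf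
  obtain ⟨D, hD, h'⟩ := hg
  refine ⟨C * D, by positivity, fun m n => ?_⟩
  rw [abs_mul, mul_pow]
  exact mul_le_mul (h m n) (h' m n) (abs_nonneg _) (by positivity)

theorem Sub.bdd {f : ℕ → ℕ → ℝ} (c : ℝ) (h : ∀ m n, |f m n| ≤ c) : Sub f :=
  ⟨max 1 c, by positivity, fun m n => (h m n).trans ((le_max_right _ _).trans
    (le_self_pow₀ (le_max_left _ _) (by omega)))⟩

theorem Conv.of {t u f : ℕ → ℕ → ℝ} (hu : Conv u) (hf : Sub f)
    (h : ∀ m n, |t m n| ≤ |f m n| * |u m n|) : Conv t := by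
  obtain ⟨C, hC, hf⟩ := hf
  intro y hy
  refine Summable.of_nonneg_of_le (fun p => by positivity) (fun p => ?_)
    ((hu (C * y) (by positivity)).mul_left C)
  calc |t p.1 p.2| * y ^ (p.1 + p.2) ≤ C ^ (p.1 + p.2 + 1) * |u p.1 p.2| * y ^ (p.1 + p.2) := by
        gcongr; exact (h _ _).trans (by gcongr; exact hf _ _)
    _ = _ := by rw [mul_pow]; ring

theorem conv_iff {t u f g : ℕ → ℕ → ℝ} (hf : Sub f) (hg : Sub g) (hf' : Sub fun m n => (f m n)⁻¹)
    (hg' : Sub fun m n => (g m n)⁻¹) (f0 : ∀ m n, f m n ≠ 0) (g0 : ∀ m n, g m n ≠ 0)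
    (h : ∀ m n, |t m n| * |f m n| = |u m n| * |g m n|) : Conv t ↔ Conv u := by
  constructor
  · refine fun H => H.of (hf.mul hg') fun m n => le_of_eq ?_
    have := abs_pos.mpr (g0 m n)
    rw [abs_mul, abs_inv]; field_simp; linarith [h m n]
  · refine fun H => H.of (hg.mul hf') fun m n => le_of_eq ?_
    have := abs_pos.mpr (f0 m n)
    rw [abs_mul, abs_inv]; field_simp; linarith [h m n]

theorem conv_rpow {u : ℕ → ℕ → ℝ} {α : ℝ} (hα : 0 < α) (e : ℝ → ℝ) :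
    (∀ x : ℝ, 0 < x → Summable fun p : ℕ × ℕ => |x ^ e x * (u p.1 p.2 * x ^ (p.1 + α * p.2))|) ↔
      Conv u := by
  have key : ∀ x : ℝ, 0 < x → ∀ p : ℕ × ℕ, |x ^ e x * (u p.1 p.2 * x ^ (p.1 + α * p.2))| =
      x ^ e x * (|u p.1 p.2| * (x ^ p.1 * (x ^ α) ^ p.2)) := by
    intro x hx p
    rw [abs_mul, abs_mul, abs_of_pos (rpow_pos_of_pos hx _), abs_of_pos (rpow_pos_of_pos hx _),
      rpow_add hx, rpow_natCast, rpow_mul_natCast hx.le]
  constructor
  · intro H y hy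
    have hx : 0 < max y (y ^ α⁻¹) := lt_max_of_lt_left hy
    have := (H _ hx).mul_left ((max y (y ^ α⁻¹)) ^ e (max y (y ^ α⁻¹)))⁻¹
    simp only [key _ hx, inv_mul_cancel_left₀ (rpow_pos_of_pos hx _).ne'] at this
    refine Summable.of_nonneg_of_le (fun p => by positivity) (fun p => ?_) this
    rw [pow_add]
    have : y ≤ (max y (y ^ α⁻¹)) ^ α := by
      conv_lhs => rw [← rpow_inv_rpow hy.le hα.ne']
      exact rpow_le_rpow (by positivity) (le_max_right _ _) hα.le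
    gcongr
    exact le_max_left _ _
  · intro H x hx
    simp only [key _ hx]
    refine Summable.mul_left _ (Summable.of_nonneg_of_le (fun p => by positivity) (fun p => ?_)
      (H (max x (x ^ α)) (lt_max_of_lt_left hx)))
    rw [pow_add]
    gcongr
    · exact le_max_left _ _
    · exact le_max_right _ _

theorem small (c d δ : ℝ) (hc : 0 < c) (R : ℕ) :
    volume {ρ : ℝ | |ρ| ≤ R ∧ |sin (π * (c * ρ + d))| < δ} ≤
      (2 * (⌈c * R⌉₊ + 2) + 1 : ℕ) * ENNReal.ofReal (δ / c) := by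
  set K := ⌈c * R⌉₊ + 2
  have hsub : {ρ : ℝ | |ρ| ≤ R ∧ |sin (π * (c * ρ + d))| < δ} ⊆
      ⋃ k ∈ Finset.range (2 * K + 1), Metric.ball (((⌊d⌋ - K + k) - d) / c) (δ / c / 2) := by
    rintro ρ ⟨h1, h2⟩
    set k := round (c * ρ + d)
    have hk : |c * ρ + d - k| ≤ 1 / 2 := abs_sub_round _
    have h3 : |sin (π * (c * ρ + d))| = |sin (π * (c * ρ + d - k))| := by
      rw [mul_sub, mul_comm π k, sin_sub_int_mul_pi, abs_mul, abs_neg_one_zpow, one_mul]
    have h4 := mul_abs_le_abs_sin (x := π * (c * ρ + d - k)) (by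
      rw [abs_mul, abs_of_pos pi_pos]; nlinarith [pi_pos])
    rw [abs_mul, abs_of_pos pi_pos, ← mul_assoc, div_mul_cancel₀ _ pi_pos.ne'] at h4
    have h5 := Nat.le_ceil (c * R)
    have h6 := Int.floor_le d
    have h7 := Int.lt_floor_add_one d
    have h8 : |c * ρ| ≤ c * R := by rw [abs_mul, abs_of_pos hc]; gcongr
    have hK : (K : ℝ) = ⌈c * R⌉₊ + 2 := by simp [K]
    rw [abs_le] at hk h8
    have h9 : ((⌊d⌋ - K : ℤ) : ℝ) ≤ k := by push_cast; linarith
    have h10 : (k : ℝ) ≤ ((⌊d⌋ + K : ℤ) : ℝ) := by push_cast; linarith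
    have h9 : ⌊d⌋ - K ≤ k := by exact_mod_cast h9
    have h10 : k ≤ ⌊d⌋ + K := by exact_mod_cast h10
    refine Set.mem_iUnion₂.mpr ⟨(k - (⌊d⌋ - K)).toNat, mem_range.mpr (by omega), ?_⟩
    have : (((k - (⌊d⌋ - K)).toNat : ℕ) : ℝ) = k - (⌊d⌋ - K) := by
      have := Int.toNat_of_nonneg (show 0 ≤ k - (⌊d⌋ - K) by omega)
      exact_mod_cast congrArg (Int.cast : ℤ → ℝ) this
    rw [Metric.mem_ball, Real.dist_eq, this]
    have e : ρ - (⌊d⌋ - K + (k - (⌊d⌋ - K)) - d) / c = (c * ρ + d - k) / c := by field_simp; ring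
    rw [e, abs_div, abs_of_pos hc, div_div, div_lt_div_iff₀ hc (by positivity)]
    nlinarith
  refine (measure_mono hsub).trans ((measure_biUnion_finset_le _ _).trans (le_of_eq ?_))
  simp only [Real.volume_ball, sum_const, card_range, nsmul_eq_mul]
  congr 2; ring

theorem good (c : ℝ) (hc : 0 < c) (d : ℕ → ℝ) :
    ∀ᵐ ρ : ℝ, ∃ N : ℕ, ∀ m, (1 / 2 : ℝ) ^ (m + N) ≤ |sin (π * (c * ρ + d m))| := by
  have : ∀ R : ℕ, ∀ᵐ ρ : ℝ, |ρ| ≤ R →
      ∃ N : ℕ, ∀ m, (1 / 2 : ℝ) ^ (m + N) ≤ |sin (π * (c * ρ + d m))| := by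
    intro R
    rw [ae_iff]
    set K : ℕ := 2 * (⌈c * R⌉₊ + 2) + 1
    have hb : ∀ N : ℕ, volume {ρ : ℝ | ¬(|ρ| ≤ R →
        ∃ N : ℕ, ∀ m, (1 / 2 : ℝ) ^ (m + N) ≤ |sin (π * (c * ρ + d m))|)} ≤
        ENNReal.ofReal (K * 2 / c * (1 / 2) ^ N) := by
      intro N
      calc _ ≤ volume (⋃ m, {ρ : ℝ | |ρ| ≤ R ∧ |sin (π * (c * ρ + d m))| < (1 / 2) ^ (m + N)}) := by
            refine measure_mono fun ρ h => ?_
            simp only [Set.mem_setOf_eq, Classical.not_imp, not_exists, not_forall, not_le] at h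
            obtain ⟨m, hm⟩ := h.2 N
            exact Set.mem_iUnion.mpr ⟨m, h.1, hm⟩
        _ ≤ ∑' m, ENNReal.ofReal (K / c * (1 / 2) ^ N * (1 / 2) ^ m) := by
            refine (measure_iUnion_le _).trans (ENNReal.tsum_le_tsum fun m => ?_)
            refine (small c _ _ hc R).trans (le_of_eq ?_)
            rw [← ENNReal.ofReal_natCast, ← ENNReal.ofReal_mul (by positivity)]
            congr 1; rw [pow_add]; field_simp; rfl
        _ = _ := by
            rw [← ENNReal.ofReal_tsum_of_nonneg (fun m => by positivity)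
              (summable_geometric_two.mul_left _), tsum_mul_left, tsum_geometric_two]
            congr 1; ring
    have ht : Filter.Tendsto (fun N : ℕ => ENNReal.ofReal (K * 2 / c * (1 / 2) ^ N)) Filter.atTop
        (nhds 0) := by
      have := ENNReal.tendsto_ofReal ((tendsto_pow_atTop_nhds_zero_of_lt_one
        (r := (1 / 2 : ℝ)) (by norm_num) (by norm_num)).const_mul (K * 2 / c))
      simpa using this
    exact le_antisymm (ge_of_tendsto' ht hb) (by simp)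
  filter_upwards [ae_all_iff.mpr this] with ρ h using h ⌈|ρ|⌉₊ (Nat.le_ceil _)

/-- lower bounds for the two families of sines -/
def Good (α ρ : ℝ) : Prop :=
  (∀ m : ℕ, sin (π * (ρ + m / α)) ≠ 0) ∧ (∀ n : ℕ, sin (π * (α * (ρ + n))) ≠ 0) ∧
    (Sub fun m _ => (sin (π * (ρ + m / α)))⁻¹) ∧ Sub fun _ n => (sin (π * (α * (ρ + n))))⁻¹

theorem ae_good {α : ℝ} (hα : 0 < α) : ∀ᵐ ρ : ℝ, Good α ρ := by
  filter_upwards [good 1 one_pos fun m => m / α, good α hα fun n => α * n] with ρ ⟨N, h⟩ ⟨M, h'⟩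
  simp only [one_mul, ← mul_add] at h h'
  have key : ∀ (x : ℝ) (k N m n : ℕ), k ≤ m + n → (1 / 2 : ℝ) ^ (k + N) ≤ |x| →
      |x⁻¹| ≤ (2 ^ (N + 1)) ^ (m + n + 1) := by
    intro x k N m n hk hx
    rw [abs_inv, ← pow_mul]
    refine (inv_anti₀ (by positivity) hx).trans ?_
    rw [one_div, inv_pow, inv_inv]
    exact pow_le_pow_right₀ (by norm_num) (by nlinarith)
  exact ⟨fun m => abs_pos.mp (lt_of_lt_of_le (by positivity) (h m)),
    fun m => abs_pos.mp (lt_of_lt_of_le (by positivity) (h' m)),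
    ⟨_, by positivity, fun m n => key _ m N m n (by omega) (h m)⟩,
    ⟨_, by positivity, fun m n => key _ n M m n (by omega) (h' n)⟩⟩

noncomputable def PQ (α ρ : ℝ) (m n : ℕ) : ℝ :=
  (∏ j ∈ range m, sin (π * (ρ + j / α))) * ∏ j ∈ range n, sin (π * (α * (ρ + j)))

theorem sub_sin (f : ℕ → ℕ → ℝ) : Sub fun m n => sin (f m n) :=
  Sub.bdd 1 fun _ _ => abs_sin_le_one _

theorem zo {A : Set ℝ} (hm : MeasurableSet A) {t : ℝ} (hi : Irrational t)
    (h1 : ∀ᵐ ρ : ℝ, ρ + 1 ∈ A ↔ ρ ∈ A) (ht : ∀ᵐ ρ : ℝ, ρ + t ∈ A ↔ ρ ∈ A) :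
    (∀ᵐ ρ : ℝ, ρ ∈ Set.Ioc (0 : ℝ) (0 + 1) → ρ ∈ A) ∨
      ∀ᵐ ρ : ℝ, ρ ∈ Set.Ioc (0 : ℝ) (0 + 1) → ρ ∉ A := by
  have sh : ∀ (c : ℝ) {p : ℝ → Prop}, (∀ᵐ ρ : ℝ, p ρ) → ∀ᵐ ρ : ℝ, p (ρ + c) := fun c p h =>
    (measurePreserving_add_right volume c).quasiMeasurePreserving.ae h
  have hk : ∀ᵐ ρ : ℝ, ∀ k : ℤ, ρ + k ∈ A ↔ ρ ∈ A := by
    rw [ae_all_iff]
    intro k
    induction k using Int.induction_on with
    | zero => simp
    | succ k ih =>
      filter_upwards [ih, sh k h1] with ρ a b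
      push_cast at *; rw [← add_assoc, b, a]
    | pred k ih =>
      filter_upwards [ih, sh (-k - 1) h1] with ρ a b
      push_cast at *; rw [← b, ← a]; congr! 1; ring
  let B : Set (AddCircle (1 : ℝ)) := {θ | ∀ ρ : ℝ, (ρ : AddCircle (1 : ℝ)) = θ → ρ ∈ A}
  have hB : ∀ ρ : ℝ, (ρ : AddCircle (1 : ℝ)) ∈ B ↔ ∀ k : ℤ, ρ + k ∈ A := by
    intro ρ
    constructor
    · intro h k
      refine h _ ?_
      rw [AddCircle.coe_add, add_eq_left, AddCircle.coe_eq_zero_iff]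
      exact ⟨k, by simp⟩
    · intro h σ hσ
      rw [← sub_eq_zero, ← AddCircle.coe_sub, AddCircle.coe_eq_zero_iff] at hσ
      obtain ⟨k, hk⟩ := hσ
      have : σ = ρ + k := by simp at hk; linarith
      exact this ▸ h k
  have hBm : MeasurableSet B := by
    refine measurableSet_quotient.mpr ?_
    have : Quotient.mk'' ⁻¹' B = ⋂ k : ℤ, (fun ρ : ℝ => ρ + k) ⁻¹' A := by
      ext ρ; exact (hB ρ).trans (by simp)
    rw [this]
    exact MeasurableSet.iInter fun k => measurable_add_const _ hm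
  have hA : ∀ᵐ ρ : ℝ, (ρ : AddCircle (1 : ℝ)) ∈ B ↔ ρ ∈ A := by
    filter_upwards [hk] with ρ h
    rw [hB]; exact ⟨fun H => (h 0).mp (H 0), fun H k => (h k).mpr H⟩
  have he : Ergodic ((· + (t : AddCircle (1 : ℝ)))) := AddCircle.ergodic_add_right.mpr (by
    rw [addOrderOf_eq_zero_iff, AddCircle.not_isOfFinAddOrder_iff_forall_rat_ne_div]
    intro q hq; exact hi ⟨q, by simpa using hq⟩)
  have mp := AddCircle.measurePreserving_mk 1 0
  have := he.quasiErgodic.ae_mem_or_ae_notMem₀ hBm.nullMeasurableSet (by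
    rw [Filter.eventuallyEq_set, ← mp.map_eq]
    refine (ae_map_iff mp.measurable.aemeasurable ((he.measurable hBm).iff hBm)).mpr
      (ae_restrict_of_ae ?_)
    filter_upwards [hA, sh t hA, ht] with ρ a b c
    exact b.trans (c.trans a.symm))
  refine this.imp (fun h => ?_) fun h => ?_ <;>
  · filter_upwards [(ae_restrict_iff' measurableSet_Ioc).mp (mp.quasiMeasurePreserving.ae h), hA]
      with ρ a b c
    rw [← b]; exact a c

theorem zero_one {α : ℝ} (hα : 0 < α) (hi : Irrational α) (w : ℕ → ℕ → ℝ) :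
    (∀ᵐ ρ : ℝ, ρ ∈ Set.Ioc (0 : ℝ) (0 + 1) → ρ ∈ {ρ : ℝ | Conv fun m n => w m n * PQ α ρ m n}) ∨
    ∀ᵐ ρ : ℝ, ρ ∈ Set.Ioc (0 : ℝ) (0 + 1) → ρ ∉ {ρ : ℝ | Conv fun m n => w m n * PQ α ρ m n} := by
  obtain ⟨A, hA⟩ : ∃ A, A = {ρ : ℝ | Conv fun m n => w m n * PQ α ρ m n} := ⟨_, rfl⟩
  rw [← hA]
  have hm : MeasurableSet A := by
    have : A = ⋂ k : ℕ, {ρ | ∑' p : ℕ × ℕ, ENNReal.ofReal
        (|w p.1 p.2 * PQ α ρ p.1 p.2| * (k + 1 : ℝ) ^ (p.1 + p.2)) ≠ ⊤} := by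
      ext ρ
      simp only [hA, Set.mem_setOf_eq, Set.mem_iInter]
      refine ⟨fun h k => (h _ (by positivity)).tsum_ofReal_ne_top, fun h y hy => ?_⟩
      refine Summable.of_nonneg_of_le (fun p => by positivity) (fun p => ?_)
        (ENNReal.summable_toReal (h ⌈y⌉₊))
      rw [ENNReal.toReal_ofReal (by positivity)]
      gcongr
      linarith [Nat.le_ceil y]
    rw [this]
    refine MeasurableSet.iInter fun k => ?_
    have : Measurable fun ρ : ℝ => ∑' p : ℕ × ℕ, ENNReal.ofReal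
        (|w p.1 p.2 * PQ α ρ p.1 p.2| * (k + 1 : ℝ) ^ (p.1 + p.2)) := by
      refine Measurable.ennreal_tsum fun p => ENNReal.measurable_ofReal.comp
        (Continuous.measurable ?_)
      unfold PQ; fun_prop
    exact this (measurableSet_singleton ⊤).compl
  have key : ∀ t : ℝ, (∀ ρ, Good α ρ → (ρ + t ∈ A ↔ ρ ∈ A)) → ∀ᵐ ρ : ℝ, ρ + t ∈ A ↔ ρ ∈ A :=
    fun t h => (ae_good hα).mono h
  refine zo hm hi.inv ?_ ?_
  · refine key 1 fun ρ ⟨h1, h2, h3, h4⟩ => ?_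
    simp only [hA, Set.mem_setOf_eq]
    refine conv_iff (f := fun _ _ => sin (π * (α * (ρ + (0 : ℕ)))))
      (g := fun _ n => sin (π * (α * (ρ + n)))) (sub_sin _) (sub_sin _)
      (Sub.bdd _ fun _ _ => le_rfl) h4 (fun _ _ => h2 0) (fun _ n => h2 n) fun m n => ?_
    have e1 : ∀ j : ℕ, |sin (π * (ρ + 1 + j / α))| = |sin (π * (ρ + j / α))| := fun j => by
      rw [show π * (ρ + 1 + j / α) = π * (ρ + j / α) + π by ring, sin_add_pi, abs_neg]
    have e2 := (prod_range_succ' (fun j : ℕ => |sin (π * (α * (ρ + j)))|) n).symm.trans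
      (prod_range_succ _ n)
    simp only [PQ, abs_mul, abs_prod, e1, mul_assoc]
    rw [← e2]; congr 3
    refine prod_congr rfl fun j _ => ?_
    push_cast; ring_nf
  · refine key α⁻¹ fun ρ ⟨h1, h2, h3, h4⟩ => ?_
    simp only [hA, Set.mem_setOf_eq]
    refine conv_iff (f := fun _ _ => sin (π * (ρ + (0 : ℕ) / α)))
      (g := fun m _ => sin (π * (ρ + m / α))) (sub_sin _) (sub_sin _)
      (Sub.bdd _ fun _ _ => le_rfl) h3 (fun _ _ => h1 0) (fun m _ => h1 m) fun m n => ?_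
    have e1 : ∀ j : ℕ, |sin (π * (α * (ρ + α⁻¹ + j)))| = |sin (π * (α * (ρ + j)))| := fun j => by
      rw [show π * (α * (ρ + α⁻¹ + j)) = π * (α * (ρ + j)) + π by field_simp; ring, sin_add_pi,
        abs_neg]
    have e2 := (prod_range_succ' (fun j : ℕ => |sin (π * (ρ + j / α))|) m).symm.trans
      (prod_range_succ _ m)
    have e3 : ∏ j ∈ range m, |sin (π * (ρ + α⁻¹ + j / α))| =
        ∏ j ∈ range m, |sin (π * (ρ + (j + 1 : ℕ) / α))| := by
      refine prod_congr rfl fun j _ => ?_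
      push_cast; ring_nf
    simp only [PQ, abs_mul, abs_prod, e1, e3]
    linear_combination |w m n| * (∏ j ∈ range n, |sin (π * (α * (ρ + j)))|) * e2

theorem gamma_up (s : ℝ) (hs : 0 < s) (k : ℕ) : Gamma (s + k) ≤ exp (k * (s + k)) * Gamma s := by
  induction k with
  | zero => simp
  | succ k ih =>
    have h1 : s + k ≤ exp (s + k) := by linarith [add_one_le_exp (s + k)]
    have h2 := Gamma_pos_of_pos hs
    push_cast
    rw [← add_assoc, Gamma_add_one (by positivity)]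
    calc (s + k) * Gamma (s + k) ≤ exp (s + k) * (exp (k * (s + k)) * Gamma s) := by
          gcongr
      _ ≤ _ := by
          rw [← mul_assoc, ← exp_add]; gcongr; nlinarith [(k.cast_nonneg : (0 : ℝ) ≤ k)]

theorem sub_gamma {r s : ℝ} (hr : 0 < r) (hs : 0 < s) (hrs : r ≤ s + 2) (t : ℕ → ℕ → ℝ)
    (ht : ∀ m n, 0 ≤ t m n ∧ t m n ≤ 2 * (m + n)) :
    Sub fun m n => Gamma (r + t m n) / Gamma (s + t m n) := by
  have h1 : Sub fun m n => exp (8 * (m + n : ℝ)) := ⟨exp 8, exp_pos _, fun m n => by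
    rw [abs_of_pos (exp_pos _), ← exp_nat_mul, exp_le_exp]; push_cast; linarith⟩
  obtain ⟨C, hC, h⟩ := (Sub.bdd (f := fun _ _ => r⁻¹ * exp (4 * (s + 4))) _ fun _ _ => le_rfl).mul h1
  refine ⟨C, hC, fun m n => le_trans ?_ (h m n)⟩
  obtain ⟨t0, t1⟩ := ht m n
  have g1 := Gamma_pos_of_pos (show 0 < r + t m n by positivity)
  have g2 := Gamma_pos_of_pos (show 0 < s + t m n by positivity)
  rw [abs_of_pos (by positivity), abs_of_pos (by positivity), div_le_iff₀ g2]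
  have e1 : Gamma (r + t m n + 1 + 1) = (r + t m n + 1) * ((r + t m n) * Gamma (r + t m n)) := by
    rw [Gamma_add_one (by positivity), Gamma_add_one (by positivity)]
  have e2 : Gamma (r + t m n + 1 + 1) ≤ Gamma (s + t m n + (4 : ℕ)) :=
    Gamma_strictMonoOn_Ici.monotoneOn (by simp only [Set.mem_Ici]; linarith)
      (by simp only [Set.mem_Ici]; push_cast; linarith) (by push_cast; linarith)
  have e3 := gamma_up (s + t m n) (by positivity) 4
  have e4 : exp ((4 : ℕ) * (s + t m n + (4 : ℕ))) ≤ exp (4 * (s + 4)) * exp (8 * (m + n : ℝ)) := by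
    rw [← exp_add]; gcongr; push_cast; linarith
  have e5 : r * Gamma (r + t m n) ≤ (r + t m n + 1) * ((r + t m n) * Gamma (r + t m n)) := by
    rw [← mul_assoc]; gcongr; nlinarith
  rw [mul_assoc, mul_assoc, le_inv_mul_iff₀ hr, ← mul_assoc]
  exact e5.trans (e1 ▸ e2.trans (e3.trans (by gcongr)))

noncomputable def den (α : ℝ) (m n : ℕ) : ℝ :=
  (∏ j ∈ Icc 1 m, (sin (π * j / α))⁻¹) * ∏ j ∈ Icc 1 n, (sin (π * α * j))⁻¹

theorem a_eq {α : ℝ} (hα : 0 < α) (ρ : ℝ) (m n : ℕ) : |a α ρ m n| =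
    |Gamma (1 - ρ - n - m / α) * Gamma (α * ρ + m + α * n)|⁻¹ * |den α m n * PQ α ρ m n| := by
  have e1 : ∏ j ∈ Icc 1 m, sin (π / α * (α * ρ + j - 1)) = ∏ j ∈ range m, sin (π * (ρ + j / α)) := by
    rw [← Finset.Ico_add_one_right_eq_Icc, prod_Ico_eq_prod_range]
    refine prod_congr (by simp) fun j _ => ?_
    congr 1; push_cast; field_simp; ring
  have e2 : ∏ j ∈ Icc 1 n, sin (π * α * (ρ + j - 1)) = ∏ j ∈ range n, sin (π * (α * (ρ + j))) := by
    rw [← Finset.Ico_add_one_right_eq_Icc, prod_Ico_eq_prod_range]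
    refine prod_congr (by simp) fun j _ => ?_
    congr 1; push_cast; ring
  simp only [a, den, PQ, div_eq_mul_inv (sin _), prod_mul_distrib, e1, e2, abs_mul, abs_div,
    abs_neg_one_pow]
  ring

theorem refl {s : ℝ} (hs : 0 < s) (h : sin (π * s) ≠ 0) :
    |Gamma (1 - s)|⁻¹ = Gamma s * |sin (π * s)| / π := by
  have := congrArg abs (Gamma_mul_Gamma_one_sub s)
  have g := Gamma_pos_of_pos hs
  have h' := abs_pos.mpr h
  rw [abs_mul, abs_div, abs_of_pos pi_pos, abs_of_pos g] at this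
  have : |Gamma (1 - s)| = π / (Gamma s * |sin (π * s)|) := by
    field_simp at this ⊢; linarith
  rw [this, inv_div]

theorem abs_sin_shift (x : ℝ) (n : ℕ) : |sin (π * (x + n))| = |sin (π * x)| := by
  rw [mul_add, mul_comm π n, sin_add_nat_mul_pi, abs_mul, abs_neg_one_pow, one_mul]

theorem equiv {α : ℝ} (hα : 0 < α) (hα2 : α < 2) : ∃ w : ℕ → ℕ → ℝ, ∀ ρ, 0 < ρ → ρ < 1 →
    Good α ρ → (AbsConv α ρ ↔ Conv fun m n => w m n * PQ α ρ m n) := by
  have hs : ∀ ρ, Good α ρ → ∀ m n : ℕ, sin (π * (ρ + n + m / α)) ≠ 0 := fun ρ h m n => by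
    rw [← abs_pos, add_right_comm, abs_sin_shift, abs_pos]; exact h.1 m
  by_cases h1 : α < 1
  · refine ⟨fun m n => den α m (n + 1) /
      (Gamma (1 + (n + 1 : ℕ) + m / α) * Gamma (-m - α * (n + 1 : ℕ))), fun ρ r0 r1 hg => ?_⟩
    have : AbsConv α ρ ↔ Conv fun m n => b α ρ m (n + 1) := by
      rw [← conv_rpow hα fun _ => 1 + α]
      simp only [AbsConv, if_pos h1]
      have k : ∀ x : ℝ, 0 < x → ∀ e : ℝ, x⁻¹ ^ e = x ^ (-e) := fun x hx e => by
        rw [inv_rpow hx.le, rpow_neg hx.le]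
      constructor
      · intro H x hx
        have := H x⁻¹ (inv_pos.mpr hx)
        simp only [k x hx] at this
        convert this using 5 <;> ring_nf
      · intro H x hx
        have := H x⁻¹ (inv_pos.mpr hx)
        simp only [k x hx] at this
        convert this using 5 <;> ring_nf
    rw [this]
    refine conv_iff (f := fun _ _ => 1) (Sub.bdd 1 (by simp)) (sub_sin _) (Sub.bdd 1 (by simp))
      hg.2.2.2 (by simp) (fun _ n => hg.2.1 n) fun m n => ?_
    have g1 : |Gamma (1 - ρ - (n + 1 : ℕ) - m / α)| ≠ 0 := by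
      have := refl (s := ρ + (n + 1 : ℕ) + m / α) (by positivity) (hs ρ hg m (n + 1))
      have g := Gamma_pos_of_pos (s := ρ + (n + 1 : ℕ) + m / α) (by positivity)
      have g' := abs_pos.mpr (hs ρ hg m (n + 1))
      rw [show 1 - (ρ + (n + 1 : ℕ) + m / α) = 1 - ρ - (n + 1 : ℕ) - m / α by ring] at this
      rw [Ne, ← inv_eq_zero, this]; positivity
    have g2 : |Gamma (α * ρ + m + α * (n + 1 : ℕ))| ≠ 0 :=
      abs_ne_zero.mpr (Gamma_pos_of_pos (by positivity)).ne'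
    simp only [b, abs_mul, a_eq hα, abs_div, PQ, prod_range_succ, abs_one]
    generalize |Gamma (1 - ρ - (n + 1 : ℕ) - m / α)| = G at *
    field_simp
  · have h1' := not_lt.mp h1
    refine ⟨fun m n => den α m n * (Gamma (1 + (n + m / α)) / Gamma (1 + (m + α * n))),
      fun ρ r0 r1 hg => ?_⟩
    have : AbsConv α ρ ↔ Conv fun m n => a α ρ m n := by
      rw [← conv_rpow hα fun _ => α * ρ - 1]
      simp only [AbsConv, if_neg h1]
    rw [this]
    have t1 : ∀ m n : ℕ, 0 ≤ (n + m / α : ℝ) ∧ (n + m / α : ℝ) ≤ 2 * (m + n) := fun m n =>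
      ⟨by positivity, by
        have := div_le_self (m.cast_nonneg : (0 : ℝ) ≤ m) h1'
        linarith [(m.cast_nonneg : (0 : ℝ) ≤ m), (n.cast_nonneg : (0 : ℝ) ≤ n)]⟩
    have t2 : ∀ m n : ℕ, 0 ≤ (m + α * n : ℝ) ∧ (m + α * n : ℝ) ≤ 2 * (m + n) := fun m n =>
      ⟨by positivity, by nlinarith [(m.cast_nonneg : (0 : ℝ) ≤ m), (n.cast_nonneg : (0 : ℝ) ≤ n)]⟩
    have ar : 0 < α * ρ := by positivity
    have ar2 : α * ρ ≤ 1 + 2 := by nlinarith
    refine conv_iff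
      (f := fun m n => π * (Gamma (1 + (n + m / α)) / Gamma (ρ + (n + m / α))) *
        (Gamma (α * ρ + (m + α * n)) / Gamma (1 + (m + α * n))))
      (((Sub.bdd _ fun _ _ => le_rfl).mul (sub_gamma one_pos r0 (by linarith) _ t1)).mul
        (sub_gamma ar one_pos ar2 _ t2)) (sub_sin _) ?_ hg.2.2.1 (fun m n => ?_)
      (fun m _ => hg.1 m) fun m n => ?_
    · simp only [mul_inv, inv_div]
      exact ((Sub.bdd _ fun _ _ => le_rfl).mul (sub_gamma r0 one_pos (by linarith) _ t1)).mul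
        (sub_gamma one_pos ar (by linarith) _ t2)
    · have := Gamma_pos_of_pos (s := 1 + (n + m / α)) (by positivity)
      have := Gamma_pos_of_pos (s := ρ + (n + m / α)) (by positivity)
      have := Gamma_pos_of_pos (s := α * ρ + (m + α * n)) (by positivity)
      have := Gamma_pos_of_pos (s := 1 + (m + α * n)) (by positivity)
      positivity
    · have g1 := Gamma_pos_of_pos (s := 1 + (n + m / α)) (by positivity)
      have g2 := Gamma_pos_of_pos (s := ρ + (n + m / α)) (by positivity)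
      have g3 := Gamma_pos_of_pos (s := α * ρ + (m + α * n)) (by positivity)
      have g4 := Gamma_pos_of_pos (s := 1 + (m + α * n)) (by positivity)
      have := refl (s := ρ + n + m / α) (by positivity) (hs ρ hg m n)
      rw [show 1 - (ρ + n + m / α) = 1 - ρ - n - m / α by ring, add_right_comm ρ, abs_sin_shift,
        show ρ + m / α + n = ρ + (n + m / α) by ring] at this
      rw [a_eq hα, abs_mul (Gamma _), mul_inv, this, add_assoc (α * ρ)]
      simp only [abs_mul, abs_div, abs_of_pos g1, abs_of_pos g2, abs_of_pos g3, abs_of_pos g4,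
        abs_of_pos pi_pos]
      field_simp

theorem result (α : ℝ) (hi : Irrational α) (hα : α ∈ Set.Ioo (0 : ℝ) 1 ∪ Set.Ioo 1 2) :
    volume {ρ ∈ Set.Ioo (0 : ℝ) 1 | AbsConv α ρ} = 0 ∨
      volume {ρ ∈ Set.Ioo (0 : ℝ) 1 | ¬ AbsConv α ρ} = 0 := by
  have h0 : 0 < α := by rcases hα with h | h <;> linarith [h.1]
  have h2 : α < 2 := by rcases hα with h | h <;> linarith [h.2]
  obtain ⟨w, hw⟩ := equiv h0 h2
  have hr' : ∀ ρ ∈ Set.Ioo (0 : ℝ) 1, ρ ∈ Set.Ioc (0 : ℝ) (0 + 1) := fun ρ h =>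
    ⟨h.1, by linarith [h.2]⟩
  rcases zero_one h0 hi w with h | h
  · right
    rw [measure_eq_zero_iff_ae_notMem]
    filter_upwards [h, ae_good h0] with ρ h1 hg ⟨hr, hc⟩ using hc ((hw ρ hr.1 hr.2 hg).mpr (h1 (hr' ρ hr)))
  · left
    rw [measure_eq_zero_iff_ae_notMem]
    filter_upwards [h, ae_good h0] with ρ h1 hg ⟨hr, hc⟩ using h1 (hr' ρ hr) ((hw ρ hr.1 hr.2 hg).mp hc)

end Pool.Agent.Results.MP_8ec8f8_pr.ZeroOne
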